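import Pool.Agent.Lib.MP_0e7911_co_h50.KeyDefs
import Pool.Agent.Lib.MP_0e7911_co_rect.Defs

/-! M9 of MP_0e7911_co: conversion of the rational definitions (helper43). -/

set_option autoImplicit false

namespace Pool.Agent.Lib.MP_0e7911_co_rect

open Finset Pool.Agent.Lib.MP_0e7911_co_h50

theorem level_eq {m n : ℕ} [NeZero n] (x : Fin n → Fin m) (i : Fin n) :
    level x i = (lam m (fun i => (x i : ℕ)) i : ℚ) / (n : ℚ) := by
  have hn : (n : ℚ) ≠ 0 := Nat.cast_ne_zero.mpr (NeZero.ne n)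
  rw [level, lam]
  push_cast
  field_simp

theorem exists_base {m n : ℕ} [NeZero n] (x : Fin n → Fin m) :
    ∃ S : ℕ, IsBase m (fun i => (x i : ℕ)) (S : ℤ) ∧ S ≤ n * m := by
  obtain ⟨i0, -, h0⟩ := Finset.exists_min_image (univ : Finset (Fin n))
    (fun i => lam m (fun i => (x i : ℕ)) i) ⟨0, Finset.mem_univ _⟩
  have hz : lam m (fun i => (x i : ℕ)) i0 ≤ 0 := by
    refine (h0 0 (Finset.mem_univ _)).trans ?_
    simp only [lam, Fin.val_zero]
    push_cast
    have : (0 : ℤ) ≤ (n : ℤ) * ((x 0 : ℕ) : ℤ) := by positivity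
    linarith
  have hlow : -((n : ℤ) * m) ≤ lam m (fun i => (x i : ℕ)) i0 := by
    rw [lam]
    have h1 : ((x i0 : ℕ) : ℤ) ≤ m := by exact_mod_cast (x i0).2.le
    have h2 : (n : ℤ) * ((x i0 : ℕ) : ℤ) ≤ n * m :=
      mul_le_mul_of_nonneg_left h1 (by positivity)
    have h3 : (0 : ℤ) ≤ (m : ℤ) * ((i0 : ℕ) : ℤ) := by positivity
    linarith
  refine ⟨(-lam m (fun i => (x i : ℕ)) i0).toNat, ⟨?_, i0, ?_⟩, ?_⟩
  · intro i
    rw [Int.toNat_of_nonneg (by linarith)]
    linarith [h0 i (Finset.mem_univ _)]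
  · rw [Int.toNat_of_nonneg (by linarith)]
    ring
  · rw [Int.toNat_le]
    push_cast
    linarith

theorem shift_eq {m n : ℕ} [NeZero n] (x : Fin n → Fin m) (S : ℤ)
    (h : IsBase m (fun i => (x i : ℕ)) S) : shift x = (S : ℚ) / (n : ℚ) := by
  have hn : (0 : ℚ) < (n : ℚ) := Nat.cast_pos.mpr (NeZero.pos n)
  obtain ⟨h1, i0, h2⟩ := h
  have h3 : univ.inf' univ_nonempty (level x) = -((S : ℚ) / (n : ℚ)) := by
    apply le_antisymm
    · refine (Finset.inf'_le _ (Finset.mem_univ i0)).trans ?_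
      rw [level_eq, ← neg_div]
      have : (lam m (fun i => (x i : ℕ)) i0 : ℚ) = -(S : ℚ) := by
        have h4 : lam m (fun i => (x i : ℕ)) i0 = -S := by linarith
        rw [h4]
        push_cast
        rfl
      rw [this]
    · refine Finset.le_inf' _ _ fun i _ => ?_
      rw [level_eq, ← neg_div]
      apply div_le_div_of_nonneg_right _ hn.le
      have h4 : -S ≤ lam m (fun i => (x i : ℕ)) i := by linarith [h1 i]
      exact_mod_cast h4
  rw [shift, h3, neg_neg]

theorem level_add_shift {m n : ℕ} [NeZero n] (x : Fin n → Fin m) (S : ℤ)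
    (h : IsBase m (fun i => (x i : ℕ)) S) (i : Fin n) :
    level x i + shift x = ((lam m (fun i => (x i : ℕ)) i + S : ℤ) : ℚ) / (n : ℚ) := by
  rw [level_eq, shift_eq x S h, Int.cast_add, add_div]

theorem isDyck_iff {m n : ℕ} [NeZero n] (x : Fin n → Fin m) :
    IsDyck x ↔ IsBase m (fun i => (x i : ℕ)) 0 := by
  have key : ∀ i : Fin n, n * (x i : ℕ) ≤ m * (i : ℕ) ↔
      0 ≤ lam m (fun i => (x i : ℕ)) i + 0 := by
    intro i
    rw [lam, add_zero, sub_nonneg]
    norm_cast
  constructor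
  · intro h
    refine ⟨fun i => (key i).mp (h i), 0, ?_⟩
    have h1 := (key 0).mp (h 0)
    have h2 : lam m (fun i => (x i : ℕ)) 0 ≤ 0 := by
      simp only [lam, Fin.val_zero]
      push_cast
      have : (0 : ℤ) ≤ (n : ℤ) * ((x 0 : ℕ) : ℤ) := by positivity
      linarith
    linarith
  · intro h i
    exact (key i).mpr (h.1 i)

theorem touches_eq {m n : ℕ} [NeZero n] (x : Fin n → Fin m) (S : ℤ)
    (h : IsBase m (fun i => (x i : ℕ)) S) :
    touches x = (univ.filter (fun i : Fin n => lam m (fun i => (x i : ℕ)) i + S = 0)).card := by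
  have hn : (n : ℚ) ≠ 0 := Nat.cast_ne_zero.mpr (NeZero.ne n)
  rw [touches]
  congr 1
  apply Finset.filter_congr
  intro i _
  rw [level_add_shift x S h, div_eq_zero_iff, Int.cast_eq_zero]
  simp [hn]

theorem prof_eq_map {m n N : ℕ} [NeZero n] (x : Fin n → Fin m) (w : Fin n → Fin N) (S : ℤ)
    (h : IsBase m (fun i => (x i : ℕ)) S) :
    prof (x, w) = (Multiset.map (fun i => (lam m (fun i => (x i : ℕ)) i + S, w i)) univ.val).map
      (fun z : ℤ × Fin N => ((z.1 : ℚ) / (n : ℚ), z.2)) := by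
  rw [prof, Multiset.map_map]
  refine Multiset.map_congr rfl fun i _ => ?_
  simp only [Function.comp_apply]
  rw [level_add_shift x S h]

theorem prof_eq_iff {m n N : ℕ} [NeZero n] (x y : Fin n → Fin m) (w v : Fin n → Fin N) (S T : ℤ)
    (h : IsBase m (fun i => (x i : ℕ)) S) (h' : IsBase m (fun i => (y i : ℕ)) T) :
    prof (x, w) = prof (y, v) ↔
      Multiset.map (fun i => (lam m (fun i => (x i : ℕ)) i + S, w i)) univ.val =
        Multiset.map (fun i => (lam m (fun i => (y i : ℕ)) i + T, v i)) univ.val := by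
  have hn : (n : ℚ) ≠ 0 := Nat.cast_ne_zero.mpr (NeZero.ne n)
  rw [prof_eq_map x w S h, prof_eq_map y v T h']
  have hinj : Function.Injective (fun z : ℤ × Fin N => ((z.1 : ℚ) / (n : ℚ), z.2)) := by
    rintro ⟨a, b⟩ ⟨c, d⟩ hz
    simp only [Prod.mk.injEq] at hz
    obtain ⟨h1, h2⟩ := hz
    rw [div_left_inj' hn] at h1
    exact Prod.ext (by exact_mod_cast h1) h2
  exact (Multiset.map_injective hinj).eq_iff

theorem touches_prof {m n N : ℕ} [NeZero n] (p : (Fin n → Fin m) × (Fin n → Fin N)) :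
    touches p.1 = (prof p).countP (fun z => z.1 = 0) := by
  rw [touches, prof, Multiset.countP_map]
  rfl

theorem area_prof {m n N : ℕ} [NeZero n] (p : (Fin n → Fin m) × (Fin n → Fin N)) :
    area p.1 = ((prof p).map (fun z => ⌊z.1⌋)).sum := by
  rw [area, prof, Multiset.map_map]
  rfl

theorem mem_LRP {m n N : ℕ} (p : (Fin n → Fin m) × (Fin n → Fin N)) :
    p ∈ LRP m n N ↔ IsLRP m (fun i => (p.1 i : ℕ)) p.2 := by
  rw [LRP, Finset.mem_filter, IsLRP]
  constructor
  · rintro ⟨-, h1, h2⟩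
    exact ⟨fun i j hij => h1 hij, fun i => (p.1 i).2, fun i j hij he => h2 i j hij (Fin.ext he)⟩
  · rintro ⟨h1, -, h2⟩
    refine ⟨Finset.mem_univ _, fun i j hij => h1 hij, fun i j hij he => h2 i j hij ?_⟩
    simp only [he]

theorem touches_pos {m n : ℕ} [NeZero n] (x : Fin n → Fin m) : 0 < touches x := by
  obtain ⟨S, ⟨h1, i0, h2⟩, -⟩ := exists_base x
  rw [touches_eq x S ⟨h1, i0, h2⟩, Finset.card_pos]
  exact ⟨i0, Finset.mem_filter.mpr ⟨Finset.mem_univ _, h2⟩⟩

theorem touches_le_gcd {m n : ℕ} [NeZero n] (x : Fin n → Fin m) : touches x ≤ Nat.gcd m n := by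
  obtain ⟨S, hS, -⟩ := exists_base x
  rw [touches_eq x S hS]
  have hnpos : 0 < n := NeZero.pos n
  have hg : 0 < Nat.gcd m n := Nat.gcd_pos_of_pos_right _ hnpos
  obtain ⟨m', n', hcop, hm', hn'⟩ := Nat.exists_coprime m n
  rw [mul_comm] at hm' hn'
  have hn'pos : 0 < n' := by
    rcases Nat.eq_zero_or_pos n' with h | h
    · rw [h, mul_zero] at hn'
      omega
    · exact h
  have hcard : (univ.filter (fun i : Fin n => lam m (fun i => (x i : ℕ)) i + S = 0)).card ≤
      (range (Nat.gcd m n)).card := by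
    apply Finset.card_le_card_of_injOn (fun i : Fin n => (i : ℕ) / n')
    · intro i _
      simp only [Finset.coe_range, Set.mem_Iio]
      apply Nat.div_lt_of_lt_mul
      rw [mul_comm, ← hn']
      exact i.2
    · intro i hi j hj hij
      simp only [Finset.coe_filter, Finset.mem_univ, true_and, Set.mem_ofPred_eq] at hi hj
      simp only at hij
      have h1 : (m : ℤ) * ((i : ℕ) - (j : ℕ)) = (n : ℤ) * ((x i : ℕ) - (x j : ℕ)) := by
        rw [lam] at hi hj
        linear_combination hi - hj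
      have hgz : ((Nat.gcd m n : ℕ) : ℤ) ≠ 0 := by exact_mod_cast hg.ne'
      have hmz : (m : ℤ) = (Nat.gcd m n : ℕ) * m' := by exact_mod_cast hm'
      have hnz : (n : ℤ) = (Nat.gcd m n : ℕ) * n' := by exact_mod_cast hn'
      have h2 : (m' : ℤ) * ((i : ℕ) - (j : ℕ)) = (n' : ℤ) * ((x i : ℕ) - (x j : ℕ)) := by
        apply mul_left_cancel₀ hgz
        rw [hmz, hnz] at h1
        linear_combination h1
      have h3 : (n' : ℤ) ∣ (m' : ℤ) * ((i : ℕ) - (j : ℕ)) := ⟨_, h2⟩
      have h4 : (n' : ℤ) ∣ ((i : ℕ) - (j : ℕ) : ℤ) := by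
        have hc : IsCoprime (n' : ℤ) (m' : ℤ) := by
          rw [Nat.isCoprime_iff_coprime]
          exact hcop.symm
        exact hc.dvd_of_dvd_mul_left h3
      have h5 : (i : ℕ) % n' = (j : ℕ) % n' := by
        have : (i : ℕ) ≡ (j : ℕ) [MOD n'] := by
          rw [← Int.natCast_modEq_iff]
          exact (Int.modEq_iff_dvd.mpr (by
            have := (dvd_neg.mpr h4)
            rwa [neg_sub] at this))
        exact this
      apply Fin.ext
      rw [← Nat.div_add_mod (i : ℕ) n', ← Nat.div_add_mod (j : ℕ) n', hij, h5]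
  rwa [Finset.card_range] at hcard

end Pool.Agent.Lib.MP_0e7911_co_rect
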