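import Pool.Agent.Lib.MP_0e7911_co_h50.KeyDefs

/-! M7e of MP_0e7911_co: the profile of a path (helper43). -/

set_option autoImplicit false

namespace Pool.Agent.Lib.MP_0e7911_co_h50

open Finset

theorem count_map_univ {β γ : Type*} [Fintype β] [DecidableEq γ] (g : β → γ) (k : γ) :
    Multiset.count k (Multiset.map g (univ : Finset β).val) = ∑ x, if g x = k then 1 else 0 := by
  rw [Multiset.count_map, ← Finset.filter_val, Finset.card_val, Finset.card_filter]
  exact Finset.sum_congr rfl (fun x _ => by simp [eq_comm])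

theorem exists_perm_of_count {α : Type*} [LinearOrder α] {d : ℕ} (f g : Fin d → α)
    (h : ∀ k, (∑ t, if f t = k then 1 else 0) = ∑ t, if g t = k then 1 else 0) :
    ∃ τ : Equiv.Perm (Fin d), f = g ∘ τ := by
  have hm : Multiset.map f univ.val = Multiset.map g univ.val := by
    ext k
    rw [count_map_univ, count_map_univ, h k]
  rw [Fin.univ_val_map, Fin.univ_val_map, Multiset.coe_eq_coe] at hm
  have h1 : List.ofFn (f ∘ Tuple.sort f) = List.ofFn (g ∘ Tuple.sort g) :=
    ((((Tuple.sort f).ofFn_comp_perm f).trans hm).trans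
      ((Tuple.sort g).ofFn_comp_perm g).symm).eq_of_pairwise'
      (List.sortedLE_iff_pairwise.mp (Tuple.monotone_sort f).sortedLE_ofFn)
      (List.sortedLE_iff_pairwise.mp (Tuple.monotone_sort g).sortedLE_ofFn)
  have h2 : f ∘ Tuple.sort f = g ∘ Tuple.sort g := List.ofFn_injective h1
  refine ⟨(Tuple.sort f).symm.trans (Tuple.sort g), ?_⟩
  funext t
  have := congrFun h2 ((Tuple.sort f).symm t)
  simpa using this

/-- number of entries equal to `k` -/
def cnt {α : Type*} [DecidableEq α] {b e : ℕ} (f : Fin (b + 1) → Fin (e + 1) → α) (k : α) : ℕ :=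
  ∑ i, ∑ t, if f i t = k then 1 else 0

theorem periodic_sum {b : ℕ} (h : ℕ → ℕ) (hper : ∀ i, h (i + (b + 1)) = h i) (j : ℕ) :
    ∑ i : Fin (b + 1), h ((i : ℕ) + j) = ∑ i : Fin (b + 1), h (i : ℕ) := by
  rw [Fin.sum_univ_eq_sum_range (fun i => h (i + j)) (b + 1),
    Fin.sum_univ_eq_sum_range (fun i => h i) (b + 1)]
  induction j with
  | zero => rfl
  | succ j ih =>
    have h1 := Finset.sum_range_succ' (fun i => h (i + j)) (b + 1)
    have h2 := Finset.sum_range_succ (fun i => h (i + j)) (b + 1)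
    have h3 : h (b + 1 + j) = h (0 + j) := by
      rw [show b + 1 + j = j + (b + 1) by ring, hper, Nat.zero_add]
    have h4 : ∀ i, h (i + (j + 1)) = h (i + 1 + j) := fun i => by
      rw [show i + (j + 1) = i + 1 + j by ring]
    simp only [h4]
    omega

theorem path_count {b e N : ℕ} (m : ℕ) (x : Fin ((e + 1) * (b + 1)) → ℕ)
    (w : Fin ((e + 1) * (b + 1)) → Fin N) (S : ℤ) (l : ℤ) (v : Fin N) :
    Multiset.count (l, v) (Multiset.map (fun i => (lam m x i + S, w i)) univ.val) =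
      cnt (b := b) (e := e) (keyf m x w S) (toLex (l, OrderDual.toDual v)) := by
  rw [count_map_univ, cnt, ← Equiv.sum_comp (finProdFinEquiv (m := e + 1) (n := b + 1)),
    Fintype.sum_prod_type, Finset.sum_comm]
  refine Finset.sum_congr rfl fun i _ => Finset.sum_congr rfl fun t _ => ?_
  have : ((lam m x (finProdFinEquiv (t, i)) + S, w (finProdFinEquiv (t, i))) = (l, v)) ↔
      keyf m x w S i t = toLex (l, OrderDual.toDual v) := by
    constructor
    · intro h
      rw [Prod.mk.injEq] at h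
      simp only [keyf, h.1, h.2]
    · intro h
      have h' := congrArg ofLex h
      simp only [keyf, ofLex_toLex, Prod.mk.injEq, OrderDual.toDual_inj] at h'
      rw [Prod.mk.injEq]
      exact h'
  simp only [this]

theorem keyf_lev_dvd {b e a N : ℕ} (x : Fin ((e + 1) * (b + 1)) → ℕ)
    (w : Fin ((e + 1) * (b + 1)) → Fin N) (S : ℤ) (j : ℕ)
    (h : (((e + 1) * (b + 1) : ℕ) : ℤ) ∣ S - (((e + 1) * a : ℕ) : ℤ) * (j : ℤ))
    (i : Fin (b + 1)) (t : Fin (e + 1)) :
    (((e + 1) * (b + 1) : ℕ) : ℤ) ∣ (keyf ((e + 1) * a) x w S i t).lev -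
      (((e + 1) * a : ℕ) : ℤ) * (((i : ℕ) + j : ℕ) : ℤ) := by
  obtain ⟨c, hc⟩ := h
  have h1 : (keyf ((e + 1) * a) x w S i t).lev =
    lam ((e + 1) * a) x (finProdFinEquiv (t, i)) + S := rfl
  rw [h1, lam]
  have hval : ((finProdFinEquiv (t, i) : Fin ((e + 1) * (b + 1))) : ℕ) = i + (b + 1) * t := by
    simp [finProdFinEquiv]
  refine ⟨a * t - x (finProdFinEquiv (t, i)) + c, ?_⟩
  rw [hval]
  push_cast at hc ⊢
  linear_combination hc

theorem class_sep {b e a : ℕ} (hcop : Nat.Coprime a (b + 1)) (l : ℤ) (j : ℕ)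
    (i i' : Fin (b + 1))
    (h : (((e + 1) * (b + 1) : ℕ) : ℤ) ∣ l - (((e + 1) * a : ℕ) : ℤ) * (((i : ℕ) + j : ℕ) : ℤ))
    (h' : (((e + 1) * (b + 1) : ℕ) : ℤ) ∣
      l - (((e + 1) * a : ℕ) : ℤ) * (((i' : ℕ) + j : ℕ) : ℤ)) : i = i' := by
  obtain ⟨c, hc⟩ := h
  obtain ⟨c', hc'⟩ := h'
  have hpos : ((e : ℤ) + 1) ≠ 0 := by positivity
  have h1 : (a : ℤ) * ((i' : ℕ) - (i : ℕ) : ℤ) = ((b + 1 : ℕ) : ℤ) * (c - c') := by
    apply mul_left_cancel₀ hpos
    push_cast at hc hc' ⊢
    linear_combination hc - hc'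
  have h2 : ((b + 1 : ℕ) : ℤ) ∣ (a : ℤ) * ((i' : ℕ) - (i : ℕ) : ℤ) := ⟨_, h1⟩
  have h3 : IsCoprime ((b + 1 : ℕ) : ℤ) (a : ℤ) := by
    rw [Nat.isCoprime_iff_coprime]
    exact hcop.symm
  have h4 := h3.dvd_of_dvd_mul_left h2
  have h5 : ((i' : ℕ) - (i : ℕ) : ℤ) = 0 := by
    apply Int.eq_zero_of_abs_lt_dvd h4
    have := i.2
    have := i'.2
    rw [abs_lt]
    constructor <;> push_cast <;> omega
  apply Fin.ext
  omega

theorem profile_exists {b e a N : ℕ} (ha : 0 < a) (hcop : Nat.Coprime a (b + 1))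
    (x0 : Fin ((e + 1) * (b + 1)) → ℕ) (w0 : Fin ((e + 1) * (b + 1)) → Fin N) (S0 : ℤ)
    (h0 : IsBase ((e + 1) * a) x0 S0) :
    ∃ F : ℕ → Fin (e + 1) → Key N, (∀ i, Monotone (F i)) ∧ (∀ i, F (i + (b + 1)) = F i) ∧
      (∀ (i : ℕ) (r : Fin (e + 1)),
        ((((e + 1) * (b + 1) : ℕ) : ℤ)) ∣ (F i r).lev - (((e + 1) * a : ℕ) : ℤ) * (i : ℤ)) ∧
      (∀ i r, 0 ≤ (F i r).lev) ∧ (∃ i r, (F i r).lev = 0) ∧
      (Multiset.map (fun p : Fin (b + 1) × Fin (e + 1) =>
          ((F (p.1 : ℕ) p.2).lev, (F (p.1 : ℕ) p.2).lab)) univ.val =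
        Multiset.map (fun i => (lam ((e + 1) * a) x0 i + S0, w0 i)) univ.val) ∧
      (∀ (x : Fin ((e + 1) * (b + 1)) → ℕ) (w : Fin ((e + 1) * (b + 1)) → Fin N) (S : ℤ) (j : ℕ),
        ((((e + 1) * (b + 1) : ℕ) : ℤ)) ∣ S - (((e + 1) * a : ℕ) : ℤ) * (j : ℤ) →
        (keyf ((e + 1) * a) x w S ∈ Seqs F j ↔
          Multiset.map (fun i => (lam ((e + 1) * a) x i + S, w i)) univ.val =
          Multiset.map (fun i => (lam ((e + 1) * a) x0 i + S0, w0 i)) univ.val)) := by
  obtain ⟨hnn, i0, hi0⟩ := h0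
  obtain ⟨k0, hk0⟩ : ∃ k : Fin (b + 1) → Fin (e + 1) → Key N,
    k = keyf ((e + 1) * a) x0 w0 S0 := ⟨_, rfl⟩
  obtain ⟨c0, hc0⟩ : ∃ c : ℕ, c = b * (i0 : ℕ) := ⟨_, rfl⟩
  have hS0 : (((e + 1) * (b + 1) : ℕ) : ℤ) ∣ S0 - (((e + 1) * a : ℕ) : ℤ) * (c0 : ℤ) := by
    refine ⟨x0 i0 - a * (i0 : ℕ), ?_⟩
    rw [hc0]
    rw [lam] at hi0
    push_cast at hi0 ⊢
    linear_combination hi0
  obtain ⟨io, hio⟩ : ∃ io : ℕ → Fin (b + 1),
    ∀ j, ((io j : Fin (b + 1)) : ℕ) = (j + b * c0) % (b + 1) :=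
    ⟨fun j => ⟨(j + b * c0) % (b + 1), Nat.mod_lt _ (Nat.succ_pos _)⟩, fun _ => rfl⟩
  obtain ⟨F, hF⟩ : ∃ F : ℕ → Fin (e + 1) → Key N,
    ∀ j, F j = k0 (io j) ∘ Tuple.sort (k0 (io j)) := ⟨_, fun _ => rfl⟩
  have hper : ∀ i, F (i + (b + 1)) = F i := by
    intro i
    have : io (i + (b + 1)) = io i := by
      apply Fin.ext
      rw [hio, hio, show i + (b + 1) + b * c0 = (i + b * c0) + (b + 1) by ring,
        Nat.add_mod_right]
    rw [hF, hF, this]
  have hdvd : ∀ (i : ℕ) (r : Fin (e + 1)), ((((e + 1) * (b + 1) : ℕ) : ℤ)) ∣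
      (F i r).lev - (((e + 1) * a : ℕ) : ℤ) * (i : ℤ) := by
    intro i r
    have h1 := keyf_lev_dvd x0 w0 S0 c0 hS0 (io i) (Tuple.sort (k0 (io i)) r)
    rw [← hk0] at h1
    have h2 : F i r = k0 (io i) (Tuple.sort (k0 (io i)) r) := by rw [hF]; rfl
    rw [h2]
    obtain ⟨c, hc⟩ := h1
    have h3 : ((io i : Fin (b + 1)) : ℕ) + (b + 1) * ((i + b * c0) / (b + 1)) = i + b * c0 := by
      rw [hio]
      exact Nat.mod_add_div _ _
    have h4 : (((io i : Fin (b + 1)) : ℕ) : ℤ) + ((b : ℤ) + 1) * (((i + b * c0) / (b + 1) : ℕ) : ℤ)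
        = i + b * c0 := by exact_mod_cast h3
    refine ⟨c + a * (c0 - (((i + b * c0) / (b + 1) : ℕ) : ℤ)), ?_⟩
    push_cast at hc h4 ⊢
    linear_combination hc + ((e : ℤ) + 1) * a * h4
  have hcntF : ∀ k, cnt (b := b) (fun i t => F (i : ℕ) t) k = cnt k0 k := by
    intro k
    have h1 : ∀ j, (∑ t, if F j t = k then 1 else 0) =
        ∑ t, if k0 (io j) t = k then 1 else 0 := by
      intro j
      rw [hF]
      exact Equiv.sum_comp (Tuple.sort (k0 (io j))) (fun t => if k0 (io j) t = k then 1 else 0)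
    simp only [cnt, h1]
    have h2 := periodic_sum (b := b)
      (fun j => ∑ t, if k0 ⟨j % (b + 1), Nat.mod_lt _ (Nat.succ_pos _)⟩ t = k then 1 else 0)
      (fun i => by simp only [Nat.add_mod_right]) (b * c0)
    have h3 : ∀ j : ℕ, io j = ⟨(j + b * c0) % (b + 1), Nat.mod_lt _ (Nat.succ_pos _)⟩ :=
      fun j => Fin.ext (hio j)
    simp only [h3]
    rw [h2]
    refine Finset.sum_congr rfl fun i _ => ?_
    have h4 : (⟨(i : ℕ) % (b + 1), Nat.mod_lt _ (Nat.succ_pos _)⟩ : Fin (b + 1)) = i :=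
      Fin.ext (Nat.mod_eq_of_lt i.2)
    simp only [h4]
  have hcntFj : ∀ (j : ℕ) k, cnt (b := b) (fun i t => F ((i : ℕ) + j) t) k = cnt k0 k := by
    intro j k
    rw [← hcntF k]
    exact periodic_sum (fun i => ∑ t, if F i t = k then 1 else 0)
      (fun i => by simp only [hper]) j
  refine ⟨F, ?_, hper, hdvd, ?_, ?_, ?_, ?_⟩
  · intro i
    rw [hF]
    exact Tuple.monotone_sort _
  · intro i r
    rw [hF, hk0]
    exact hnn _
  · have h1 : io (((finProdFinEquiv.symm i0).2 : ℕ) + c0) = (finProdFinEquiv.symm i0).2 := by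
      apply Fin.ext
      rw [hio, show (((finProdFinEquiv.symm i0).2 : ℕ) + c0 + b * c0) =
        ((finProdFinEquiv.symm i0).2 : ℕ) + (b + 1) * c0 by ring, Nat.add_mul_mod_self_left,
        Nat.mod_eq_of_lt (finProdFinEquiv.symm i0).2.2]
    refine ⟨((finProdFinEquiv.symm i0).2 : ℕ) + c0,
      (Tuple.sort (k0 (finProdFinEquiv.symm i0).2)).symm (finProdFinEquiv.symm i0).1, ?_⟩
    rw [hF, h1, Function.comp_apply, Equiv.apply_symm_apply, hk0]
    show lam ((e + 1) * a) x0 (finProdFinEquiv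
      ((finProdFinEquiv.symm i0).1, (finProdFinEquiv.symm i0).2)) + S0 = 0
    rw [Prod.mk.eta, Equiv.apply_symm_apply]
    exact hi0
  · ext ⟨l, v⟩
    rw [path_count, ← hk0, ← hcntF, count_map_univ, Fintype.sum_prod_type, cnt]
    refine Finset.sum_congr rfl fun i _ => Finset.sum_congr rfl fun t _ => ?_
    have : (((F (i : ℕ) t).lev, (F (i : ℕ) t).lab) = (l, v)) ↔
        F (i : ℕ) t = toLex (l, OrderDual.toDual v) := by
      constructor
      · intro h
        rw [Prod.mk.injEq] at h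
        rw [← h.1, ← h.2]
        rfl
      · intro h
        rw [h]
        rfl
    simp only [this]
  · intro x w S j hSj
    constructor
    · intro h
      rw [Seqs, Finset.mem_image] at h
      obtain ⟨τ, -, hτ⟩ := h
      ext ⟨l, v⟩
      rw [path_count, path_count, ← hk0, ← hτ, ← hcntFj j]
      simp only [cnt]
      refine Finset.sum_congr rfl fun i _ => ?_
      exact Equiv.sum_comp (τ i)
        (fun t => if F ((i : ℕ) + j) t = toLex (l, OrderDual.toDual v) then 1 else 0)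
    · intro h
      have hcnt : ∀ k, cnt (keyf ((e + 1) * a) x w S) k =
          cnt (b := b) (fun i t => F ((i : ℕ) + j) t) k := by
        intro k
        have h1 := path_count ((e + 1) * a) x w S (ofLex k).1 (OrderDual.ofDual (ofLex k).2)
        have h2 := path_count ((e + 1) * a) x0 w0 S0 (ofLex k).1 (OrderDual.ofDual (ofLex k).2)
        rw [h, h2] at h1
        rw [hcntFj, hk0]
        exact h1.symm
      have hτ : ∀ i : Fin (b + 1), ∃ τ : Equiv.Perm (Fin (e + 1)),
          keyf ((e + 1) * a) x w S i = F ((i : ℕ) + j) ∘ τ := by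
        intro i
        apply exists_perm_of_count
        intro k
        by_cases hk : (((e + 1) * (b + 1) : ℕ) : ℤ) ∣
            k.lev - (((e + 1) * a : ℕ) : ℤ) * (((i : ℕ) + j : ℕ) : ℤ)
        · have h1 := hcnt k
          simp only [cnt] at h1
          rw [Finset.sum_eq_single i, Finset.sum_eq_single i] at h1
          · exact h1
          · intro i' _ hne
            apply Finset.sum_eq_zero
            intro t _
            rw [if_neg]
            intro heq
            apply hne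
            have h3 := hdvd ((i' : ℕ) + j) t
            rw [heq] at h3
            exact class_sep hcop k.lev j i' i h3 hk
          · intro h2
            exact absurd (Finset.mem_univ _) h2
          · intro i' _ hne
            apply Finset.sum_eq_zero
            intro t _
            rw [if_neg]
            intro heq
            apply hne
            have h3 := keyf_lev_dvd (a := a) x w S j hSj i' t
            rw [heq] at h3
            exact class_sep hcop k.lev j i' i h3 hk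
          · intro h2
            exact absurd (Finset.mem_univ _) h2
        · have h1 : ∀ t, keyf ((e + 1) * a) x w S i t ≠ k := by
            intro t heq
            apply hk
            rw [← heq]
            exact keyf_lev_dvd (a := a) x w S j hSj i t
          have h2 : ∀ t, F ((i : ℕ) + j) t ≠ k := by
            intro t heq
            apply hk
            rw [← heq]
            exact hdvd ((i : ℕ) + j) t
          simp only [h1, h2, if_false]
      choose τ hτ using hτ
      rw [Seqs, Finset.mem_image]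
      refine ⟨τ, Finset.mem_univ _, ?_⟩
      funext i
      exact (hτ i).symm

end Pool.Agent.Lib.MP_0e7911_co_h50
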